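import Mathlib
import Pool.Agent.Helper533.Fdf.Bd

/-! Fon-der-Flaass 3-graphs: the density is at least `4/9 - 1/5700` asymptotically. -/

set_option autoImplicit false
open Finset

namespace Pool.Agent.Results.MP_8cac16_co.DensityBound

open Pool.Agent.Helper533.Fdf

/-- `R` is (the arc relation of) an oriented graph: no loops, at most one arc per pair. -/
def IsOriented {n : ℕ} (R : Fin n → Fin n → Prop) : Prop :=
  ∀ u v, R u v → ¬ R v u

/-- The oriented graph has no induced oriented 4-cycle `a → b → c → d → a` (the four vertices are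
automatically distinct in an oriented graph). -/
def NoInducedC4 {n : ℕ} (R : Fin n → Fin n → Prop) : Prop :=
  ¬ ∃ a b c d : Fin n, R a b ∧ R b c ∧ R c d ∧ R d a ∧ ¬ R a c ∧ ¬ R c a ∧ ¬ R b d ∧ ¬ R d b

open Classical in
/-- The Fon-der-Flaass 3-graph: the triples with a vertex which has no arc to or from the other
two, or with a vertex which has arcs to both others. -/
noncomputable def fdf {n : ℕ} (R : Fin n → Fin n → Prop) : Finset (Finset (Fin n)) :=
  (Finset.univ.powersetCard 3).filter fun s : Finset (Fin n) =>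
    ∃ x ∈ s, (∀ y ∈ s, y ≠ x → (¬ R x y ∧ ¬ R y x)) ∨ (∀ y ∈ s, y ≠ x → R x y)

open Classical in
/-- code of the relation between two vertices -/
noncomputable def rl {V : Type} (R : V → V → Prop) (x y : V) : ℕ :=
  if R x y then 1 else if R y x then 2 else 0

theorem pr_rl {n : ℕ} (R : Fin n → Fin n → Prop) (h : IsOriented R) (x y : Fin n) :
    Pr (rl R x y) (rl R y x) := by
  have h1 := h x y
  have h2 := h y x
  unfold rl Pr
  by_cases a : R x y <;> by_cases b : R y x <;> simp_all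

theorem rl0 {V : Type} {R : V → V → Prop} {x y : V} (h : rl R x y = 0) : ¬ R x y ∧ ¬ R y x := by
  unfold rl at h
  by_cases a : R x y <;> by_cases b : R y x <;> simp_all

theorem rl1 {V : Type} {R : V → V → Prop} {x y : V} (h : rl R x y = 1) : R x y := by
  unfold rl at h
  by_cases a : R x y <;> by_cases b : R y x <;> simp_all

theorem rl2 {V : Type} {R : V → V → Prop} {x y : V} (h : rl R x y = 2) : R y x := by
  unfold rl at h
  by_cases a : R x y <;> by_cases b : R y x <;> simp_all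

def cyclesList : List (List ℕ) := [[1, 0, 2, 1, 0, 1], [2, 0, 1, 2, 0, 2],
      [1, 2, 0, 0, 1, 2], [2, 1, 0, 0, 2, 1], [0, 1, 2, 2, 1, 0], [0, 2, 1, 1, 2, 0]]

theorem c4_chk : (nall 3 fun x => nall 3 fun y => nall 3 fun z => nall 3 fun u => nall 3 fun v =>
    nall 3 fun w => (decide (c4 x y z u v w = 0) || decide ([x, y, z, u, v, w] ∈ cyclesList)))
      = true := by decide +kernel

theorem c4_aux (x : ℕ) (hx : x < 3) (y : ℕ) (hy : y < 3) (z : ℕ) (hz : z < 3) (u : ℕ) (hu : u < 3)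
    (v : ℕ) (hv : v < 3) (w : ℕ) (hw : w < 3) :
    c4 x y z u v w = 0 ∨ [x, y, z, u, v, w] ∈ cyclesList := by
  have h := nall_true (nall_true (nall_true (nall_true (nall_true (nall_true c4_chk x hx) y hy)
    z hz) u hu) v hv) w hw
  rw [Bool.or_eq_true, decide_eq_true_iff, decide_eq_true_iff] at h
  exact h

theorem c4_table {x y z u v w : ℕ} (hx : x < 3) (hy : y < 3) (hz : z < 3) (hu : u < 3)
    (hv : v < 3) (hw : w < 3) :
    c4 x y z u v w = 0 ∨
    (x = 1 ∧ y = 0 ∧ z = 2 ∧ u = 1 ∧ v = 0 ∧ w = 1) ∨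
    (x = 2 ∧ y = 0 ∧ z = 1 ∧ u = 2 ∧ v = 0 ∧ w = 2) ∨
    (x = 1 ∧ y = 2 ∧ z = 0 ∧ u = 0 ∧ v = 1 ∧ w = 2) ∨
    (x = 2 ∧ y = 1 ∧ z = 0 ∧ u = 0 ∧ v = 2 ∧ w = 1) ∨
    (x = 0 ∧ y = 1 ∧ z = 2 ∧ u = 2 ∧ v = 1 ∧ w = 0) ∨
    (x = 0 ∧ y = 2 ∧ z = 1 ∧ u = 1 ∧ v = 2 ∧ w = 0) := by
  have h := c4_aux x hx y hy z hz u hu v hv w hw
  simpa only [cyclesList, List.mem_cons, List.cons.injEq, List.not_mem_nil, and_true, or_false] using h

theorem pc_table : ∀ x < 3, ∀ y < 3, ∀ z < 3, pc (cd x y z) =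
    if (x = 0 ∧ y = 0) ∨ (x = 0 ∧ z = 0) ∨ (y = 0 ∧ z = 0) ∨ (x = 1 ∧ y = 1) ∨
      (x = 2 ∧ z = 1) ∨ (y = 2 ∧ z = 2) then 1 else 0 := by decide +kernel

theorem noC4_rl {n : ℕ} (R : Fin n → Fin n → Prop) (h : IsOriented R) (hC : NoInducedC4 R) :
    NoC4 (rl R) := by
  intro a b c d
  have hl : ∀ x y, rl R x y < 3 := fun x y => Pr_lt (pr_rl R h x y)
  rcases c4_table (hl a b) (hl a c) (hl a d) (hl b c) (hl b d) (hl c d) with
    h0 | ⟨h1, h2, h3, h4, h5, h6⟩ | ⟨h1, h2, h3, h4, h5, h6⟩ | ⟨h1, h2, h3, h4, h5, h6⟩ |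
      ⟨h1, h2, h3, h4, h5, h6⟩ | ⟨h1, h2, h3, h4, h5, h6⟩ | ⟨h1, h2, h3, h4, h5, h6⟩
  · exact h0
  · exact absurd ⟨a, b, c, d, rl1 h1, rl1 h4, rl1 h6, rl2 h3, (rl0 h2).1, (rl0 h2).2,
      (rl0 h5).1, (rl0 h5).2⟩ hC
  · exact absurd ⟨a, d, c, b, rl1 h3, rl2 h6, rl2 h4, rl2 h1, (rl0 h2).1, (rl0 h2).2,
      (rl0 h5).2, (rl0 h5).1⟩ hC
  · exact absurd ⟨a, b, d, c, rl1 h1, rl1 h5, rl2 h6, rl2 h2, (rl0 h3).1, (rl0 h3).2,
      (rl0 h4).1, (rl0 h4).2⟩ hC
  · exact absurd ⟨a, c, d, b, rl1 h2, rl1 h6, rl2 h5, rl2 h1, (rl0 h3).1, (rl0 h3).2,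
      (rl0 h4).2, (rl0 h4).1⟩ hC
  · exact absurd ⟨a, c, b, d, rl1 h2, rl2 h4, rl1 h5, rl2 h3, (rl0 h1).1, (rl0 h1).2,
      (rl0 h6).1, (rl0 h6).2⟩ hC
  · exact absurd ⟨a, d, b, c, rl1 h3, rl2 h5, rl1 h4, rl2 h2, (rl0 h1).1, (rl0 h1).2,
      (rl0 h6).2, (rl0 h6).1⟩ hC

open Classical in
theorem pc_le_ind {n : ℕ} (R : Fin n → Fin n → Prop) (h : IsOriented R) (a b c : Fin n) :
    pc (cd (rl R a b) (rl R a c) (rl R b c)) ≤
      (if a ≠ b ∧ a ≠ c ∧ b ≠ c ∧ ({a, b, c} : Finset (Fin n)) ∈ fdf R then 1 else 0)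
      + (if a = b then 1 else 0) + (if a = c then 1 else 0) + (if b = c then 1 else 0) := by
  have hl : ∀ x y, rl R x y < 3 := fun x y => Pr_lt (pr_rl R h x y)
  rw [pc_table _ (hl a b) _ (hl a c) _ (hl b c)]
  by_cases hab : a = b
  · simp only [if_pos hab]; split_ifs <;> omega
  by_cases hac : a = c
  · simp only [if_pos hac]; split_ifs <;> omega
  by_cases hbc : b = c
  · simp only [if_pos hbc]; split_ifs <;> omega
  simp only [if_neg hab, if_neg hac, if_neg hbc, add_zero]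
  split_ifs with h1 h2
  · exact le_rfl
  · exfalso
    apply h2
    refine ⟨hab, hac, hbc, ?_⟩
    unfold fdf
    rw [mem_filter, mem_powersetCard]
    refine ⟨⟨subset_univ _, Finset.card_eq_three.mpr ⟨a, b, c, hab, hac, hbc, rfl⟩⟩, ?_⟩
    rcases h1 with ⟨e1, e2⟩ | ⟨e1, e2⟩ | ⟨e1, e2⟩ | ⟨e1, e2⟩ | ⟨e1, e2⟩ | ⟨e1, e2⟩
    · refine ⟨a, by simp, Or.inl ?_⟩
      intro y hy hya
      simp only [mem_insert, mem_singleton] at hy
      rcases hy with rfl | rfl | rfl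
      · exact absurd rfl hya
      · exact rl0 e1
      · exact rl0 e2
    · refine ⟨b, by simp, Or.inl ?_⟩
      intro y hy hya
      simp only [mem_insert, mem_singleton] at hy
      rcases hy with rfl | rfl | rfl
      · exact (rl0 e1).symm
      · exact absurd rfl hya
      · exact rl0 e2
    · refine ⟨c, by simp, Or.inl ?_⟩
      intro y hy hya
      simp only [mem_insert, mem_singleton] at hy
      rcases hy with rfl | rfl | rfl
      · exact (rl0 e1).symm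
      · exact (rl0 e2).symm
      · exact absurd rfl hya
    · refine ⟨a, by simp, Or.inr ?_⟩
      intro y hy hya
      simp only [mem_insert, mem_singleton] at hy
      rcases hy with rfl | rfl | rfl
      · exact absurd rfl hya
      · exact rl1 e1
      · exact rl1 e2
    · refine ⟨b, by simp, Or.inr ?_⟩
      intro y hy hya
      simp only [mem_insert, mem_singleton] at hy
      rcases hy with rfl | rfl | rfl
      · exact rl2 e1
      · exact absurd rfl hya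
      · exact rl1 e2
    · refine ⟨c, by simp, Or.inr ?_⟩
      intro y hy hya
      simp only [mem_insert, mem_singleton] at hy
      rcases hy with rfl | rfl | rfl
      · exact rl2 e1
      · exact rl2 e2
      · exact absurd rfl hya
  · exact Nat.zero_le _
  · exact Nat.zero_le _

open Classical in
theorem count_le {n : ℕ} (G : Finset (Finset (Fin n))) (hG : ∀ s ∈ G, s.card = 3) :
    ∑ a : Fin n, ∑ b : Fin n, ∑ c : Fin n,
      (if a ≠ b ∧ a ≠ c ∧ b ≠ c ∧ ({a, b, c} : Finset (Fin n)) ∈ G then 1 else 0) ≤ 6 * G.card := by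
  set T : Finset (Fin n × Fin n × Fin n) := univ.filter fun t =>
    t.1 ≠ t.2.1 ∧ t.1 ≠ t.2.2 ∧ t.2.1 ≠ t.2.2 ∧ ({t.1, t.2.1, t.2.2} : Finset (Fin n)) ∈ G with hT
  have e : ∑ a : Fin n, ∑ b : Fin n, ∑ c : Fin n,
      (if a ≠ b ∧ a ≠ c ∧ b ≠ c ∧ ({a, b, c} : Finset (Fin n)) ∈ G then 1 else 0) = T.card := by
    rw [hT, Finset.card_filter, Fintype.sum_prod_type]
    refine sum_congr rfl fun a _ => ?_
    rw [Fintype.sum_prod_type]
  rw [e]
  refine Finset.card_le_mul_card_image_of_maps_to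
    (f := fun t : Fin n × Fin n × Fin n => ({t.1, t.2.1, t.2.2} : Finset (Fin n))) ?_ 6 ?_
  · intro t ht
    exact (mem_filter.mp ht).2.2.2.2
  · intro s hs
    obtain ⟨x, y, z, hxy, hxz, hyz, rfl⟩ := Finset.card_eq_three.mp (hG s hs)
    refine (Finset.card_le_card (t := {(x, y, z), (x, z, y), (y, x, z), (y, z, x), (z, x, y),
      (z, y, x)}) ?_).trans Finset.card_le_six
    rintro ⟨a, b, c⟩ ht
    rw [mem_filter] at ht
    obtain ⟨ht, hs'⟩ := ht
    obtain ⟨-, h1, h2, h3, -⟩ := mem_filter.mp ht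
    simp only at hs' h1 h2 h3
    have ha : a ∈ ({x, y, z} : Finset (Fin n)) := by rw [← hs']; simp
    have hb : b ∈ ({x, y, z} : Finset (Fin n)) := by rw [← hs']; simp
    have hc : c ∈ ({x, y, z} : Finset (Fin n)) := by rw [← hs']; simp
    simp only [mem_insert, mem_singleton] at ha hb hc
    rcases ha with ha | ha | ha <;> rcases hb with hb | hb | hb <;>
      rcases hc with hc | hc | hc <;> simp_all

theorem PP_le {n : ℕ} (R : Fin n → Fin n → Prop) (h : IsOriented R) :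
    PP (rl R) ≤ 6 * (fdf R).card + 3 * n ^ 2 := by
  classical
  have h1 : PP (rl R) ≤ ∑ a : Fin n, ∑ b : Fin n, ∑ c : Fin n,
      ((if a ≠ b ∧ a ≠ c ∧ b ≠ c ∧ ({a, b, c} : Finset (Fin n)) ∈ fdf R then 1 else 0)
      + (if a = b then 1 else 0) + (if a = c then 1 else 0) + (if b = c then 1 else 0)) :=
    sum_le_sum fun a _ => sum_le_sum fun b _ => sum_le_sum fun c _ => pc_le_ind R h a b c
  simp only [Finset.sum_add_distrib] at h1
  have h2 := count_le (fdf R) (fun s hs => (mem_powersetCard.mp (mem_filter.mp hs).1).2)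
  have e1 : ∑ a : Fin n, ∑ b : Fin n, ∑ _c : Fin n, (if a = b then 1 else 0) = n ^ 2 := by
    simp [pow_two]
  have e2 : ∑ a : Fin n, ∑ _b : Fin n, ∑ c : Fin n, (if a = c then 1 else 0) = n ^ 2 := by
    simp [pow_two]
  have e3 : ∑ _a : Fin n, ∑ b : Fin n, ∑ c : Fin n, (if b = c then 1 else 0) = n ^ 2 := by
    simp [pow_two]
  rw [e1, e2, e3] at h1
  omega

theorem bound {n : ℕ} (R : Fin n → Fin n → Prop) (h : IsOriented R) (hC : NoInducedC4 R) :
    (4 / 9 - 1 / 5700) * ((n.choose 3 : ℕ) : ℝ) - (n : ℝ) ^ 2 / 2 ≤ ((fdf R).card : ℝ) := by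
  have m := main_aux (rl R) (pr_rl R h) (noC4_rl R h hC)
  have p := PP_le R h
  rw [Fintype.card_fin] at m
  have m' : ((7597 * n ^ 3 : ℕ) : ℝ) ≤ ((17100 * (6 * (fdf R).card + 3 * n ^ 2) : ℕ) : ℝ) :=
    Nat.cast_le.mpr (m.trans (Nat.mul_le_mul_left _ p))
  push_cast at m'
  have hch : ((n.choose 3 : ℕ) : ℝ) ≤ (n : ℝ) ^ 3 / 6 := by
    have h1 := Nat.choose_le_pow_div (α := ℝ) 3 n
    have h2 : ((Nat.factorial 3 : ℕ) : ℝ) = 6 := by norm_num [Nat.factorial]
    rw [h2] at h1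
    exact h1
  linarith

/-- The density of every Fon-der-Flaass 3-graph on `n` vertices is at least
`4/9 - 1/5700 - o(1)`; more precisely it has at least `(4/9 - 1/5700) * C(n,3) - n^2/2` edges. -/
theorem result :
    (∀ ε : ℝ, ε > 0 → ∃ N : ℕ, ∀ n : ℕ, n ≥ N → ∀ R : Fin n → Fin n → Prop,
      IsOriented R → NoInducedC4 R →
        (4 / 9 - 1 / 5700 - ε) * ((n.choose 3 : ℕ) : ℝ) ≤ ((fdf R).card : ℝ)) ∧
    (∀ (n : ℕ) (R : Fin n → Fin n → Prop), IsOriented R → NoInducedC4 R →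
        (4 / 9 - 1 / 5700) * ((n.choose 3 : ℕ) : ℝ) - (n : ℝ) ^ 2 / 2 ≤ ((fdf R).card : ℝ)) := by
  refine ⟨?_, fun n R h hC => bound R h hC⟩
  intro ε hε
  obtain ⟨N, hN⟩ := exists_nat_gt (8 / ε)
  refine ⟨max N 4, fun n hn R h hC => ?_⟩
  have hb := bound R h hC
  have hn4 : 4 ≤ n := (le_max_right _ _).trans hn
  have hnN : 8 / ε < (n : ℝ) := hN.trans_le (by exact_mod_cast (le_max_left _ _).trans hn)
  have h8 : 8 < ε * (n : ℝ) := by
    rw [div_lt_iff₀ hε] at hnN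
    linarith
  have hch : ((n.choose 3 : ℕ) : ℝ) = (n : ℝ) * (n - 1) * (n - 2) / 6 := by
    have h1 : n.choose 3 * 6 = n * (n - 1) * (n - 2) := by
      have := Nat.descFactorial_eq_factorial_mul_choose n 3
      have h2 : n.descFactorial 3 = (n - 2) * ((n - 1) * n) := by
        simp [Nat.descFactorial]
      rw [h2] at this
      have h3 : Nat.factorial 3 = 6 := rfl
      rw [h3] at this
      linarith
    have h4 : ((n.choose 3 * 6 : ℕ) : ℝ) = ((n * (n - 1) * (n - 2) : ℕ) : ℝ) := by rw [h1]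
    push_cast [Nat.cast_sub (show 1 ≤ n by omega), Nat.cast_sub (show 2 ≤ n by omega)] at h4
    linarith
  have hn4' : (4 : ℝ) ≤ n := by exact_mod_cast hn4
  have key : (n : ℝ) ^ 2 / 2 ≤ ε * ((n.choose 3 : ℕ) : ℝ) := by
    rw [hch]
    have e1 : 3 * (n : ℝ) ^ 2 / 8 ≤ (n - 1) * (n - 2) := by nlinarith
    have e2 : ε * ((n : ℝ) * (n - 1) * (n - 2) / 6) = ε * (n : ℝ) * ((n - 1) * (n - 2)) / 6 := by ring
    rw [e2]
    have e3 : 8 * (3 * (n : ℝ) ^ 2 / 8) ≤ ε * (n : ℝ) * ((n - 1) * (n - 2)) := by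
      apply mul_le_mul h8.le e1 (by positivity) (by positivity)
    linarith
  have : (4 / 9 - 1 / 5700 - ε) * ((n.choose 3 : ℕ) : ℝ) =
      (4 / 9 - 1 / 5700) * ((n.choose 3 : ℕ) : ℝ) - ε * ((n.choose 3 : ℕ) : ℝ) := by ring
  rw [this]
  linarith

end Pool.Agent.Results.MP_8cac16_co.DensityBound
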